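import Pool.Agent.Helper41.TU.Lg3

/-!
# Top degree unramified cohomology modulo 2 vanishes if `-K_X . L ^ (N - 1) > 0`

`k` is an algebraically closed field of characteristic different from `2`. `X = Proj A` is a normal projective variety over `k` of dimension `N = n + 1 ≥ 1`
with the very ample line bundle `L = O(1)` and normal homogeneous coordinate ring `A = ⊕ A_m`, `A_m = H^0(X, L^m)` (every normal projective variety with an ample line bundle
is of this form after replacing the line bundle by a power). By asymptotic Riemann - Roch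
`dim A_m = e0 m^N / N! + e1 m^(N-1) / (N-1)! + o(m^(N-1))` with `e0 = L^N > 0` and `e1 = - K_X . L^(N-1) / 2`. The hypothesis is `e1 > 0`. It is satisfied by all Fano varieties (for
`L = - m K_X`) and by all Mori fibre spaces `X → B` (for `L = - K_X + t A_B`, `t` large), so (Birkar - Cascini - Hacon - McKernan, not used here) every uniruled, in particular
every rationally connected variety is birational to such an `X`.

`KM F N` is `K_N^M(F) / 2`, which is `H^N(F, Z/2)` by the theorem of Voevodsky.

THEOREM. (1) Every element of `K_N^M(k(X)) / 2` whose residues at all discrete valuations of `k(X)` trivial on `k` vanish is `0`: `H^N_nr(k(X)/k, Z/2) = 0`.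
The discrete valuation rings `O` are the `ValuationSubring`s of `k(X) = funField 𝒜 L` which contain `k` and are discrete valuation rings.
(2) Every quadratic form of dimension at least `2 ^ N` over `k(X)` whose second residues at these valuations vanish in the Witt groups of the residue fields is isotropic.
(3) Every element of `K_N^M(k(X)) / 2` whose residues vanish at all prime divisors of `X` outside a finite set `R` of prime divisors with `deg R < -K_X . L^(N-1)` is `0`. The prime
divisors are the homogeneous primes `P` of height one of `A`, `PD 𝒜`, the discrete valuation ring of `P` contains the quotients `a / b` of elements of equal degree with `b ∉ P`,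
`part 𝒜 P m` is `A_m ∩ P`, and the degree of `P` is the leading coefficient of the Hilbert function `dim A_m - dim (A_m ∩ P)`. The bound is sharp for all `N`: for `X = P^N` the symbol
`{x_1 / x_0, ..., x_N / x_0}` is not `0` and is unramified outside the `N + 1` coordinate hyperplanes, of degree `N + 1 = -K_X . L^(N-1)`.
-/

set_option autoImplicit false

namespace Pool.Agent.Results.MP_3f01ee_ag.TopDegreeModTwo

open Module Filter Asymptotics IsLocalRing Pool.Agent.Helper41.TU

/-- `d` is the residue map `K_{n+1}^M(K) / 2 → K_n^M(κ) / 2` of the discrete valuation ring `O` with uniformiser `p` and residue field `κ`: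
`d {p^(a 0) u 0, ..., p^(a n) u n} = ∑ i, a i {ū 0, .., omit i, .., ū n}` for units `u i` of `O`. -/
def IsResidue {K : Type*} [Field K] (O : ValuationSubring K) {n : ℕ} (d : KM K (n + 1) → KM (ResidueField O) n) : Prop :=
  (∀ x y, d (x + y) = d x + d y) ∧ ∃ p : O, Irreducible p ∧
    ∀ (l : Fin (n + 1) → Kˣ) (a : Fin (n + 1) → ℤ) (u : Fin (n + 1) → Oˣ), (∀ i, (l i : K) = (p : K) ^ (a i) * ((u i : O) : K)) →
      d (sym l) = ∑ i : Fin (n + 1), (a i : ZMod 2) • sym (fun j : Fin n => Units.map (residue O).toMonoidHom (u (i.succAbove j)))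

/-- If `O` is a discrete valuation ring which contains `k` then the residue of `x` at `O` vanishes. -/
def ResidueZero (k : Type*) {K : Type*} [Field k] [Field K] [Algebra k K] {n : ℕ} (x : KM K (n + 1)) (O : ValuationSubring K) : Prop :=
  (∀ c : k, algebraMap k K c ∈ O) → IsDiscreteValuationRing O → ∀ d : KM K (n + 1) → KM (ResidueField O) n, IsResidue O d → d x = 0

/-- `H^{n+1}_nr(K/k, Z/2) = 0`: every element of `K_{n+1}^M(K) / 2` with residue zero at all discrete valuation rings of `K` which contain `k` is zero. -/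
def UnramifiedVanish (k K : Type*) [Field k] [Field K] [Algebra k K] (n : ℕ) : Prop :=
  ∀ x : KM K (n + 1), (∀ O, ResidueZero k x O) → x = 0

/-- Every diagonal quadratic form over `K` in at least `2 ^ (n + 1)` variables whose second residues at all discrete valuation rings which contain `k` are zero in the Witt
groups of the residue fields (`ResZero`) is isotropic. -/
def UnramifiedIsotropic (k K : Type*) [Field k] [Field K] [Algebra k K] (n : ℕ) : Prop :=
  ∀ (r : ℕ) (f : Fin r → K), 2 ^ (n + 1) ≤ r → (∀ j, f j ≠ 0) →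
    (∀ O : ValuationSubring K, (∀ c : k, algebraMap k K c ∈ O) → IsDiscreteValuationRing O → ResZero O f) →
    ∃ x : Fin r → K, x ≠ 0 ∧ ∑ j, f j * x j ^ 2 = 0

section

variable {k A : Type*} [Field k] [CommRing A] [Algebra k A] (𝒜 : ℕ → Submodule k A)

/-- `dim A_m = e0 m^(n+1) / (n+1)! + e1 m^n / n! + o(m^n)`. -/
def Growth (n : ℕ) (e0 e1 : ℝ) : Prop :=
  (fun m : ℕ => (finrank k (𝒜 m) : ℝ) - (e0 * (m : ℝ) ^ (n + 1) / (n + 1).factorial + e1 * (m : ℝ) ^ n / n.factorial))
    =o[atTop] fun m : ℕ => (m : ℝ) ^ n

variable [GradedAlgebra 𝒜]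

/-- The sum over `P ∈ R` of the Hilbert functions of `A / P` is at most `δ m^n / n!` for large `m`. -/
def DegreeLe (n : ℕ) (R : Finset (PD 𝒜)) (δ : ℝ) : Prop :=
  ∀ᶠ m : ℕ in atTop, ∑ P ∈ R, ((finrank k (𝒜 m) : ℝ) - finrank k (part 𝒜 P.1 m)) ≤ δ * (m : ℝ) ^ n / n.factorial

variable [IsDomain A] (L : Type*) [Field L] [Algebra A L] [IsFractionRing A L] [Algebra k L] [IsScalarTower k A L]

/-- `O` contains the local ring of `Proj A` at `P`. -/
def Over (P : PD 𝒜) (O : ValuationSubring (funField 𝒜 L)) : Prop :=
  ∀ (m : ℕ) (a b : A), a ∈ 𝒜 m → b ∈ 𝒜 m → b ∉ P.1 →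
    ∀ y : funField 𝒜 L, (y : L) = algebraMap A L a / algebraMap A L b → y ∈ O

/-- Every element of `K_{n+1}^M / 2` of the function field of `Proj A` which has residue zero at all prime divisors outside a finite set `R` of degree at most `δ < 2 e1` is zero. -/
def RamifiedVanish (n : ℕ) (e1 : ℝ) : Prop :=
  ∀ (R : Finset (PD 𝒜)) (δ : ℝ), δ < 2 * e1 → DegreeLe 𝒜 n R δ → ∀ x : KM (funField 𝒜 L) (n + 1),
    (∀ P : PD 𝒜, P ∉ R → ∀ O, Over 𝒜 L P O → ResidueZero k x O) → x = 0

end

/-- The residue map exists (used in the proof, and the reason why `ResidueZero` is not an empty condition). -/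
theorem isResidue_tame {K : Type*} [Field K] (O : ValuationSubring K) [IsDiscreteValuationRing O] {p : O} (hp : Irreducible p)
    (hi : IsSquare (-1 : ResidueField O)) {n : ℕ} : IsResidue O (tame O hp hi n) := by
  refine ⟨fun x y => map_add _ x y, p, hp, fun l a u h => ?_⟩
  rw [tame_sym, tame0]
  refine Finset.sum_congr rfl fun i _ => ?_
  have h1 : ∀ j, vO O hp (l j) = a j ∧ uO O hp (l j) = u j := fun j =>
    decomp_unique O hp (by rw [← decomp O hp (l j), h j])
  rw [(h1 i).1]
  congr 2
  funext j
  unfold rO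
  rw [(h1 _).2]

/-- The residue map is unique for a given uniformiser. -/
theorem residue_ext {K : Type*} [Field K] (O : ValuationSubring K) {n : ℕ} {d d' : KM K (n + 1) → KM (ResidueField O) n}
    (hd : ∀ x y, d (x + y) = d x + d y) (hd' : ∀ x y, d' (x + y) = d' x + d' y) (h : ∀ l, d (sym l) = d' (sym l)) : d = d' := by
  funext x
  have h0 : ∀ {e : KM K (n + 1) → KM (ResidueField O) n}, (∀ x y, e (x + y) = e x + e y) → e 0 = 0 := by
    intro e he
    have h1 := he 0 0
    rw [add_zero] at h1
    exact left_eq_add.1 h1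
  exact sym_ind (p := fun x => d x = d' x) (by rw [h0 hd, h0 hd']) h (fun x y hx hy => by rw [hd, hd', hx, hy]) x

theorem result {k A L : Type*} [Field k] [IsAlgClosed k] (h2 : (2 : k) ≠ 0) [CommRing A] [IsDomain A] [IsIntegrallyClosed A]
    [Algebra k A] (𝒜 : ℕ → Submodule k A) [GradedAlgebra 𝒜] (hP : Polarized 𝒜)
    [Field L] [Algebra A L] [IsFractionRing A L] [Algebra k L] [IsScalarTower k A L]
    {n : ℕ} {e0 e1 : ℝ} (he0 : 0 < e0) (he1 : 0 < e1) (hd : Growth 𝒜 n e0 e1) :
    UnramifiedVanish k (funField 𝒜 L) n ∧ UnramifiedIsotropic k (funField 𝒜 L) n ∧ RamifiedVanish 𝒜 L n e1 := by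
  refine ⟨fun x hx => ?_, fun _ f hr hf hx => main_forms 𝒜 L hP he0 he1 hd hr f hf hx, fun R _ hδ hG x hx => ?_⟩
  · refine main 𝒜 L h2 hP he0 he1 hd x fun O hk hD => ?_
    obtain ⟨p, hp⟩ := IsDiscreteValuationRing.exists_irreducible O
    exact ⟨p, hp, hx O hk hD _ (isResidue_tame O hp (neg_one_sq O hk))⟩
  · refine main_log 𝒜 L h2 hP he0 hδ hd R hG x fun P hPR O hk hD hO => ?_
    obtain ⟨p, hp⟩ := IsDiscreteValuationRing.exists_irreducible O
    exact ⟨p, hp, hx P hPR O hO hk hD _ (isResidue_tame O hp (neg_one_sq O hk))⟩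

end Pool.Agent.Results.MP_3f01ee_ag.TopDegreeModTwo
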